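import Pool.Agent.Helper34.EC.Defs

/-!
# Project EC, module C1: the expansions are injective
-/

set_option autoImplicit false

namespace Pool.Agent.Helper15.EC

open Polynomial TensorProduct Pool.Agent.Helper34.EC

variable {k : Type} [Field k] {g : ℕ}

theorem TT_injective (a : k) : Function.Injective (TT a) := by
  intro P Q h
  have h1 : ((taylor a P : k[X]) : PowerSeries k) = ((taylor a Q : k[X]) : PowerSeries k) := h
  exact taylor_injective a (Polynomial.coe_injective k h1)

/-- Cancellation of the unit `uu`. -/
theorem eq_zero_of_uu_mul (c : Fin g × Bool → k) (hc : Function.Injective c)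
    (e : Fin g × Bool) (n : ℕ) {P : PowerSeries k} (h : uu c e ^ n * P = 0) : P = 0 := by
  have h1 : TT (c e) (De c e) ^ n * (uu c e ^ n * P) = 0 := by rw [h, mul_zero]
  rwa [← mul_assoc, ← mul_pow, TT_De_mul_uu c hc, one_pow, one_mul] at h1

/-- EC-C1 -/
theorem EE_injective (c : Fin g × Bool → k) (hc : Function.Injective c) (e : Fin g × Bool) :
    Function.Injective (EE c e) := by
  rw [injective_iff_map_eq_zero]
  intro f hf
  ext1 n
  rw [map_zero]
  have h1 : PowerSeries.coeff n (EE c e f) = 0 := by rw [hf, map_zero]
  rw [coeff_EE] at h1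
  have h2 := eq_zero_of_uu_mul c hc e n h1
  exact TT_injective (c e) (h2.trans (map_zero _).symm)

end Pool.Agent.Helper15.EC
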