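import Pool.Agent.Helper34.EC.Defs
import Pool.Agent.Helper15.EC.EInj

/-!
# Project EC, module C2: division by `t`
-/

set_option autoImplicit false

namespace Pool.Agent.Helper15.EC

open Polynomial TensorProduct Pool.Agent.Helper34.EC

variable {k : Type} [Field k] {g : ℕ}

theorem monic_DD (c : Fin g × Bool → k) : (DD c).Monic :=
  monic_prod_of_monic _ _ (fun e _ => monic_X_sub_C _)

theorem io_X (c : Fin g × Bool → k) :
    io c PowerSeries.X = PowerSeries.C (DD c) * PowerSeries.X := by
  ext1 n
  rw [coeff_io, PowerSeries.coeff_X, PowerSeries.coeff_C_mul, PowerSeries.coeff_X]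
  by_cases h : n = 1
  · subst h; simp
  · simp [h]

theorem constantCoeff_uu_ne (c : Fin g × Bool → k) (hc : Function.Injective c)
    (e : Fin g × Bool) : PowerSeries.constantCoeff (uu c e) ≠ 0 := by
  intro h
  have h1 := congrArg PowerSeries.constantCoeff (TT_De_mul_uu c hc e)
  rw [map_mul, h, mul_zero, map_one] at h1
  exact zero_ne_one h1

theorem eval_eq_zero (c : Fin g × Bool → k) (hc : Function.Injective c) (e : Fin g × Bool)
    (f : PowerSeries k[X]) (n : ℕ)
    (h : PowerSeries.coeff 0 (PowerSeries.coeff n (EE c e f)) = 0) :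
    (PowerSeries.coeff n f).eval (c e) = 0 := by
  rw [coeff_EE, PowerSeries.coeff_zero_eq_constantCoeff_apply, map_mul, map_pow,
    constantCoeff_TT] at h
  rcases mul_eq_zero.mp h with h1 | h1
  · exact absurd (eq_zero_of_pow_eq_zero h1) (constantCoeff_uu_ne c hc e)
  · exact h1

/-- EC-C2 -/
theorem exists_div (c : Fin g × Bool → k) (hc : Function.Injective c) (M : ℕ)
    (f : PowerSeries k[X]) (hf : f ∈ AA c) (hM : Bd g M f) (h0 : PowerSeries.coeff 0 f = 0) :
    ∃ f' ∈ AA c, Bd g M f' ∧ f = io c PowerSeries.X * f' := by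
  have hz : ∀ e : Fin g × Bool, PowerSeries.coeff 0 (EE c e f) = 0 := by
    intro e
    rw [coeff_EE, h0, map_zero, mul_zero]
  have hv : ∀ (e : Fin g × Bool) (n : ℕ), (PowerSeries.coeff n f).eval (c e) = 0 := by
    rintro ⟨i, b⟩ n
    apply eval_eq_zero c hc
    cases b
    · rw [← coeff_swap, hf.1 i, hz, map_zero]
    · rw [← hf.1 i, coeff_swap, hz, map_zero]
  have hd : ∀ n, DD c ∣ PowerSeries.coeff n f := by
    intro n
    apply Finset.prod_dvd_of_coprime
    · intro a _ b _ hab
      exact pairwise_coprime_X_sub_C hc hab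
    · intro e _
      exact dvd_iff_isRoot.mpr (hv e n)
  choose Q hQ using hd
  set f' : PowerSeries k[X] := PowerSeries.mk fun n => Q (n + 1) with hf'
  have hff : f = io c PowerSeries.X * f' := by
    ext1 n
    rw [io_X, mul_assoc, PowerSeries.coeff_C_mul]
    cases n with
    | zero => rw [PowerSeries.coeff_zero_X_mul, mul_zero, h0]
    | succ n => rw [PowerSeries.coeff_succ_X_mul, hf', PowerSeries.coeff_mk, ← hQ]
  have hB : Bd g M f' := by
    intro n
    rw [hf', PowerSeries.coeff_mk]
    have h1 := hM (n + 1)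
    rw [hQ (n + 1)] at h1
    by_cases h2 : Q (n + 1) = 0
    · rw [h2, natDegree_zero]; exact Nat.zero_le _
    · rw [(monic_DD c).natDegree_mul' h2, natDegree_DD] at h1
      have h3 : 2 * g * (n + 1) = 2 * g * n + 2 * g := by ring
      rw [h3] at h1
      omega
  refine ⟨f', ⟨fun i => ?_, M, hB⟩, hB, hff⟩
  have h1 := hf.1 i
  rw [hff, map_mul, map_mul, map_mul, (io_mem c hc PowerSeries.X).1 i] at h1
  have h2 : EE c (i, true) (io c PowerSeries.X) ≠ 0 := by
    intro h
    have h3 := coeff_EE_io c hc (i, true) PowerSeries.X 1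
    rw [h, map_zero, PowerSeries.coeff_one_X, map_one, mul_one, pow_one] at h3
    exact PowerSeries.X_ne_zero h3.symm
  exact mul_left_cancel₀ h2 h1

end Pool.Agent.Helper15.EC
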